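import Pool.Agent.N205.WT.Stm

/-! WT/8 and WT/11 (helper92) -/

set_option autoImplicit false

namespace Pool.Agent.N92.WT

open Pool.Agent.N205.WT

open Polynomial

lemma ch_per (p k : ℕ) [hp : Fact p.Prime] (n i : ℕ) (hi : i < p ^ k) :
    ((n + p ^ k).choose i : ZMod p) = n.choose i := by
  rw [← Polynomial.coeff_one_add_X_pow (ZMod p) (n + p ^ k) i,
    ← Polynomial.coeff_one_add_X_pow (ZMod p) n i, pow_add, add_pow_char_pow, one_pow, mul_add,
    mul_one, Polynomial.coeff_add, Polynomial.coeff_mul_X_pow', if_neg (by omega), add_zero]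

lemma ch_per' (p k : ℕ) [hp : Fact p.Prime] (n t i : ℕ) (hi : i < p ^ k) :
    ((n + p ^ k * t).choose i : ZMod p) = n.choose i := by
  induction t with
  | zero => simp
  | succ t ih =>
    rw [mul_add, mul_one, ← add_assoc, ch_per p k _ i hi, ih]

lemma ch_mod (p k : ℕ) [hp : Fact p.Prime] (n i : ℕ) (hi : i < p ^ k) :
    n.choose i % p = (n % p ^ k).choose i % p := by
  rw [← ZMod.natCast_eq_natCast_iff']
  conv_lhs => rw [← Nat.mod_add_div n (p ^ k)]
  exact ch_per' p k _ _ i hi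

theorem ch : S_CH :=
  ⟨fun f i hi => ch_mod 2 4 f i (by norm_num; exact hi), fun g j hj => ch_mod 3 2 g j (by norm_num; exact hj)⟩
open IntermediateField

lemma sum_monic (g : ℕ) (r : ℕ → ℤ) (hr : r g = 1) :
    (∑ j ∈ Finset.range (g + 1), C (r j) * X ^ j : ℤ[X]).Monic ∧
    (∑ j ∈ Finset.range (g + 1), C (r j) * X ^ j : ℤ[X]).natDegree = g := by
  have hlt : (∑ j ∈ Finset.range g, C (r j) * X ^ j : ℤ[X]).degree < (X ^ g : ℤ[X]).degree := by
    rw [degree_X_pow]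
    refine (degree_sum_le _ _).trans_lt ?_
    rw [Finset.sup_lt_iff (WithBot.bot_lt_coe _)]
    intro j hj
    refine (degree_C_mul_X_pow_le _ _).trans_lt ?_
    exact_mod_cast Finset.mem_range.1 hj
  have h1 : (∑ j ∈ Finset.range (g + 1), C (r j) * X ^ j : ℤ[X]) =
      X ^ g + ∑ j ∈ Finset.range g, C (r j) * X ^ j := by
    rw [Finset.sum_range_succ, hr, C_1, one_mul, add_comm]
  rw [h1]
  refine ⟨(monic_X_pow g).add_of_left hlt, ?_⟩
  rw [natDegree_add_eq_left_of_degree_lt hlt, natDegree_X_pow]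

lemma PR_eq (g : ℕ) (r : ℕ → ℤ) (hr : r g = 1) : PR g r = (X ^ 2 + C 2) ^ g +
    ∑ j ∈ Finset.range g, C (r j) * X ^ (g - j) * (X ^ 2 + C 2) ^ j := by
  unfold PR
  have h2 : (C 2 : ℤ[X]) = 2 := rfl
  rw [Finset.sum_range_succ, hr, Nat.sub_self, pow_zero, C_1, one_mul, one_mul, add_comm, h2]

lemma quad_monic : (X ^ 2 + C 2 : ℤ[X]).Monic := monic_X_pow_add_C 2 (by norm_num)

lemma quad_deg : (X ^ 2 + C 2 : ℤ[X]).natDegree = 2 := natDegree_X_pow_add_C

lemma PR_lt (g : ℕ) (r : ℕ → ℤ) (hg : 1 ≤ g) :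
    (∑ j ∈ Finset.range g, C (r j) * X ^ (g - j) * (X ^ 2 + C 2) ^ j : ℤ[X]).degree <
      ((X ^ 2 + C 2) ^ g : ℤ[X]).degree := by
  rw [degree_eq_natDegree (quad_monic.pow g).ne_zero, quad_monic.natDegree_pow, quad_deg]
  refine (degree_sum_le _ _).trans_lt ?_
  rw [Finset.sup_lt_iff (WithBot.bot_lt_coe _)]
  intro j hj
  have hj' := Finset.mem_range.1 hj
  refine (degree_mul_le _ _).trans_lt ?_
  rw [degree_eq_natDegree (quad_monic.pow j).ne_zero, quad_monic.natDegree_pow, quad_deg]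
  refine lt_of_le_of_lt (add_le_add (degree_C_mul_X_pow_le _ _) le_rfl) ?_
  have : g - j + j * 2 < g * 2 := by omega
  exact_mod_cast this

theorem monic_PR {g : ℕ} {r : ℕ → ℤ} (hg : 1 ≤ g) (hr : r g = 1) : (PR g r).Monic := by
  rw [PR_eq g r hr]
  exact (quad_monic.pow g).add_of_left (PR_lt g r hg)

theorem natDegree_PR {g : ℕ} {r : ℕ → ℤ} (hg : 1 ≤ g) (hr : r g = 1) :
    (PR g r).natDegree = 2 * g := by
  rw [PR_eq g r hr, natDegree_add_eq_left_of_degree_lt (PR_lt g r hg), quad_monic.natDegree_pow,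
    quad_deg, mul_comm]

lemma PR_aeval (g : ℕ) (r : ℕ → ℤ) {x y : ℂ} (hxy : x * y = 2) :
    aeval x (PR g r) =
      x ^ g * aeval (x + y) (∑ j ∈ Finset.range (g + 1), C (r j) * X ^ j : ℤ[X]) := by
  unfold PR
  rw [map_sum, map_sum, Finset.mul_sum]
  refine Finset.sum_congr rfl fun j hj => ?_
  have hj' : j ≤ g := Nat.lt_succ_iff.1 (Finset.mem_range.1 hj)
  have h1 : x ^ 2 + 2 = x * (x + y) := by rw [mul_add, hxy, pow_two]
  simp only [map_mul, map_pow, map_add, aeval_X, map_ofNat, aeval_C]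
  rw [h1, mul_pow]
  have h2 : x ^ g = x ^ (g - j) * x ^ j := by rw [← pow_add, Nat.sub_add_cancel hj']
  rw [h2]
  ring

theorem rirr : S_RIRR := by
  intro g r hg hr hroot hirr
  have hPm := monic_PR hg hr
  have hPd := natDegree_PR hg hr
  obtain ⟨x, hx⟩ : ∃ x : ℂ, aeval x (PR g r) = 0 := by
    obtain ⟨x, hx⟩ := IsAlgClosed.exists_aeval_eq_zero_of_injective ℂ
      (RingHom.injective_int (algebraMap ℤ ℂ)) (PR g r) (by
        rw [degree_eq_natDegree hPm.ne_zero, hPd]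
        intro h0
        have : (2 * g : ℕ) = 0 := by exact_mod_cast h0
        omega)
    exact ⟨x, hx⟩
  obtain ⟨hnorm, him⟩ := hroot x hx
  have hx0 : x ≠ 0 := by
    rintro rfl
    simp at him
  obtain ⟨y, hy⟩ : ∃ y : ℂ, y = (starRingEnd ℂ) x := ⟨_, rfl⟩
  have hxy : x * y = 2 := by
    rw [hy, Complex.mul_conj, Complex.normSq_eq_norm_sq, hnorm, Real.sq_sqrt (by norm_num)]
    simp
  obtain ⟨H, hH⟩ : ∃ H : ℤ[X], H = ∑ j ∈ Finset.range (g + 1), C (r j) * X ^ j := ⟨_, rfl⟩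
  obtain ⟨hHm, hHd⟩ := sum_monic g r hr
  rw [← hH] at hHm hHd hirr
  have hT : aeval (x + y) H = 0 := by
    have h1 := PR_aeval g r hxy
    rw [hx, ← hH] at h1
    exact (mul_eq_zero.1 h1.symm).resolve_left (pow_ne_zero _ hx0)
  have hHm' : (H.map (Int.castRingHom ℚ)).Monic := hHm.map _
  have hT' : aeval (x + y) (H.map (Int.castRingHom ℚ)) = 0 := by
    rw [← hT]
    exact aeval_map_algebraMap ℚ (x + y) H
  have hminT : H.map (Int.castRingHom ℚ) = minpoly ℚ (x + y) :=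
    minpoly.eq_of_irreducible_of_monic hirr hT' hHm'
  have hintT : IsIntegral ℚ (x + y) := ⟨_, hHm', by simpa [aeval_def] using hT'⟩
  have hfT : Module.finrank ℚ ℚ⟮x + y⟯ = g := by
    rw [IntermediateField.adjoin.finrank hintT, ← hminT, hHm.natDegree_map, hHd]
  have hPm' : ((PR g r).map (Int.castRingHom ℚ)).Monic := hPm.map _
  have hx' : aeval x ((PR g r).map (Int.castRingHom ℚ)) = 0 := by
    rw [← hx]
    exact aeval_map_algebraMap ℚ x (PR g r)
  have hintx : IsIntegral ℚ x := ⟨_, hPm', by simpa [aeval_def] using hx'⟩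
  have hxmem : x ∈ ℚ⟮x⟯ := IntermediateField.mem_adjoin_simple_self ℚ x
  have hyx : y = ((2 : ℕ) : ℂ) / x := by
    rw [eq_div_iff hx0, mul_comm, hxy]
    norm_num
  have hle : ℚ⟮x + y⟯ ≤ ℚ⟮x⟯ := by
    rw [IntermediateField.adjoin_simple_le_iff]
    refine add_mem hxmem ?_
    rw [hyx]
    exact div_mem (IntermediateField.natCast_mem _ 2) hxmem
  have hfd : FiniteDimensional ℚ ℚ⟮x⟯ := IntermediateField.adjoin.finiteDimensional hintx
  have hfdT : FiniteDimensional ℚ ℚ⟮x + y⟯ := IntermediateField.adjoin.finiteDimensional hintT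
  have hreal : ℚ⟮x + y⟯ ≤ (IsScalarTower.toAlgHom ℚ ℝ ℂ).fieldRange := by
    rw [IntermediateField.adjoin_simple_le_iff]
    exact ⟨2 * x.re, by
      rw [hy, Complex.add_conj]
      simp⟩
  have hxT : x ∉ ℚ⟮x + y⟯ := fun hmem => by
    obtain ⟨s, hs⟩ := hreal hmem
    apply him
    rw [← hs]
    exact Complex.ofReal_im s
  have hdvd : Module.finrank ℚ ℚ⟮x + y⟯ ∣ Module.finrank ℚ ℚ⟮x⟯ :=
    IntermediateField.finrank_dvd_of_le_right hle
  have hne : Module.finrank ℚ ℚ⟮x + y⟯ ≠ Module.finrank ℚ ℚ⟮x⟯ := by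
    intro he
    have := IntermediateField.eq_of_le_of_finrank_eq hle he
    rw [this] at hxT
    exact hxT hxmem
  have hpos : 0 < Module.finrank ℚ ℚ⟮x⟯ := Module.finrank_pos
  have h2g : 2 * g ≤ (minpoly ℚ x).natDegree := by
    rw [← IntermediateField.adjoin.finrank hintx]
    rw [hfT] at hdvd hne
    obtain ⟨k, hk⟩ := hdvd
    have hk2 : 2 ≤ k := by
      rcases Nat.lt_or_ge k 2 with h | h
      · interval_cases k
        · omega
        · omega
      · exact h
    rw [hk]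
    nlinarith
  have hdvd2 : minpoly ℚ x ∣ (PR g r).map (Int.castRingHom ℚ) := minpoly.dvd ℚ x hx'
  have heq : (PR g r).map (Int.castRingHom ℚ) = minpoly ℚ x :=
    Polynomial.eq_of_monic_of_dvd_of_natDegree_le (minpoly.monic hintx) hPm' hdvd2 (by
      rw [hPm.natDegree_map, hPd]
      exact h2g)
  rw [heq]
  exact minpoly.irreducible hintx

end Pool.Agent.N92.WT
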